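import Mathlib
import Pool.Agent.Helper87_Cover.Final

/-!
Q2 of MP_1000ca_al: there is a function `F` with `m(p, n) ≤ p ^ F(n)` for all primes `p` and
all `n ≥ 1`.
-/

namespace Pool.Agent.Results.MP_1000ca_al.BoundedExponent

/-- `G` is a `p ^ n`-cover: every group of order `p ^ n` is isomorphic to a subgroup of `G`. -/
def IsCover (p n : ℕ) (G : Type) [Group G] : Prop :=
  ∀ (H : Type) [Group H], Nat.card H = p ^ n → ∃ K : Subgroup G, Nonempty (H ≃* K)

/-- `m p n` is the smallest order of a finite `p ^ n`-cover. -/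
noncomputable def m (p n : ℕ) : ℕ :=
  sInf {k : ℕ | ∃ (G : Type) (_ : Group G) (_ : Finite G), IsCover p n G ∧ Nat.card G = k}

/-- There is a function `F`, depending on `n` only, such that for every prime `p` and every
`n ≥ 1` a minimum `p ^ n`-cover (which exists) has order `m p n` at most `p ^ F n`. -/
theorem result : ∃ F : ℕ → ℕ, ∀ p n : ℕ, p.Prime → 1 ≤ n →
    (∃ (G : Type) (_ : Group G) (_ : Finite G), IsCover p n G ∧ Nat.card G = m p n) ∧
      m p n ≤ p ^ F n := by
  refine ⟨Pool.Agent.Helper87_Cover.F, fun p n hp _ => ?_⟩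
  obtain ⟨U, i1, i2, h1, h2⟩ := Pool.Agent.Helper87_Cover.exists_universal p n hp
  have hU : IsCover p n U := by
    intro H _ hH
    obtain ⟨f, hf⟩ := h1 H hH
    exact ⟨f.range, ⟨MonoidHom.ofInjective hf⟩⟩
  have hmem : Nat.card U ∈
      {k : ℕ | ∃ (G : Type) (_ : Group G) (_ : Finite G), IsCover p n G ∧ Nat.card G = k} :=
    ⟨U, i1, i2, hU, rfl⟩
  exact ⟨Nat.sInf_mem ⟨_, hmem⟩, (Nat.sInf_le hmem).trans h2⟩

end Pool.Agent.Results.MP_1000ca_al.BoundedExponent
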