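import Mathlib
import Pool.Agent.Helper87_CoverQ1.Upper
import Pool.Agent.Helper87_CoverQ1.Lower

/-!
Q1 of MP_1000ca_al: the known lower bound for `log_p m(p, n)` is improved.
-/

namespace Pool.Agent.Results.MP_1000ca_al.LowerGrowth

/-- `G` is a `p ^ n`-cover: every group of order `p ^ n` is isomorphic to a subgroup of `G`. -/
def IsCover (p n : ℕ) (G : Type) [Group G] : Prop :=
  ∀ (H : Type) [Group H], Nat.card H = p ^ n → ∃ K : Subgroup G, Nonempty (H ≃* K)

/-- `m p n` is the smallest order of a finite `p ^ n`-cover. -/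
noncomputable def m (p n : ℕ) : ℕ :=
  sInf {k : ℕ | ∃ (G : Type) (_ : Group G) (_ : Finite G), IsCover p n G ∧ Nat.card G = k}

/-- For every prime `p` and every `n ≥ 1` the order of a minimum `p ^ n`-cover satisfies
`log_p m(p, n) ≥ (n ^ 2 - 6 n) / 8`. -/
theorem result (p n : ℕ) (hp : p.Prime) (hn : 1 ≤ n) :
    p ^ (n ^ 2) ≤ m p n ^ 8 * p ^ (6 * n) := by
  obtain ⟨U, i1, i2, h1, -⟩ := Pool.Agent.Helper87_CoverQ1.exists_cover p n hp hn
  have hmem : Nat.card U ∈
      {k : ℕ | ∃ (G : Type) (_ : Group G) (_ : Finite G), IsCover p n G ∧ Nat.card G = k} :=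
    ⟨U, i1, i2, h1, rfl⟩
  have hmin : ∃ (G : Type) (_ : Group G) (_ : Finite G), IsCover p n G ∧ Nat.card G = m p n :=
    Nat.sInf_mem ⟨_, hmem⟩
  obtain ⟨G, j1, j2, hG, hcard⟩ := hmin
  rw [← hcard]
  exact Pool.Agent.Helper87_CoverQ1.lower p n hp G hG

end Pool.Agent.Results.MP_1000ca_al.LowerGrowth
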